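import Pool.Agent.Helper35.AG.Basic
import Pool.Agent.Helper88.AG.Leb

/-!
# ADD: two small pieces for the compactness part
-/

set_option autoImplicit false

open MeasureTheory Filter Topology

namespace Helper36.ADD

open Helper35.AG

/-- A measure which is above `a` times the Lebesgue measure on the dyadic cells of level `K` has
entropy at least `a K log 2`. -/
theorem ent_lower {μ : Measure Tor} [IsProbabilityMeasure μ] {a : ℝ} (ha0 : 0 ≤ a) (ha1 : a < 1)
    (K : ℕ) (h : ∀ i < 2 ^ K, a / 2 ^ K ≤ μ.real {x | Helper35.AG.idx K x = i}) :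
    a * (K * Real.log 2) ≤ Helper35.AG.ent μ K := by
  have hN : (0 : ℝ) < 2 ^ K := by positivity
  have h1 : 0 < 1 - a := by linarith
  let q : ℕ → ℝ := fun i => (μ.real {x | idx K x = i} - a / 2 ^ K) / (1 - a)
  have hs : ∑ i ∈ Finset.range (2 ^ K), μ.real {x | idx K x = i} = 1 := sum_cells μ K
  have q0 : ∀ i ∈ Finset.range (2 ^ K), 0 ≤ q i := fun i hi =>
    div_nonneg (by linarith [h i (Finset.mem_range.1 hi)]) h1.le
  have qs : ∑ i ∈ Finset.range (2 ^ K), q i = 1 := by
    change ∑ i ∈ Finset.range (2 ^ K), (μ.real {x | idx K x = i} - a / 2 ^ K) / (1 - a) = 1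
    rw [← Finset.sum_div, Finset.sum_sub_distrib, hs, Finset.sum_const, Finset.card_range,
      nsmul_eq_mul]
    push_cast
    rw [mul_div_cancel₀ _ hN.ne', div_self h1.ne']
  have q1 : ∀ i ∈ Finset.range (2 ^ K), q i ≤ 1 := fun i hi => by
    rw [← qs]
    exact Finset.single_le_sum q0 hi
  have key : ∀ i ∈ Finset.range (2 ^ K), a * Real.negMulLog (1 / 2 ^ K) ≤
      Real.negMulLog (μ.real {x | idx K x = i}) := by
    intro i hi
    have hc := Real.concaveOn_negMulLog.2 (x := (1 / 2 ^ K : ℝ)) (y := q i)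
      (Set.mem_Ici.2 (by positivity)) (Set.mem_Ici.2 (q0 i hi)) ha0 h1.le (by ring)
    have he : a • (1 / 2 ^ K : ℝ) + (1 - a) • q i = μ.real {x | idx K x = i} := by
      change a * (1 / 2 ^ K : ℝ) + (1 - a) * ((μ.real {x | idx K x = i} - a / 2 ^ K) / (1 - a)) = _
      rw [mul_div_cancel₀ _ h1.ne']
      ring
    rw [he] at hc
    have h2 : 0 ≤ (1 - a) • Real.negMulLog (q i) :=
      mul_nonneg h1.le (Real.negMulLog_nonneg (q0 i hi) (q1 i hi))
    have h3 : a • Real.negMulLog (1 / 2 ^ K : ℝ) = a * Real.negMulLog (1 / 2 ^ K) := rfl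
    linarith
  calc a * (K * Real.log 2)
      = ∑ i ∈ Finset.range (2 ^ K), a * Real.negMulLog (1 / 2 ^ K) := by
        rw [Finset.sum_const, Finset.card_range, nsmul_eq_mul]
        unfold Real.negMulLog
        rw [one_div, Real.log_inv, Real.log_pow]
        push_cast
        field_simp
    _ ≤ Helper35.AG.ent μ K := Finset.sum_le_sum key

/-- An invariant measure which is not singular is above a multiple of the Lebesgue measure. -/
theorem dom_of_not_sing {ρ : Measure Tor} [IsProbabilityMeasure ρ] (hi : Helper35.AG.Inv ρ)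
    (h : ¬ ρ.MutuallySingular volume) :
    ∃ α : ℝ, 0 < α ∧ ENNReal.ofReal α • (volume : Measure Tor) ≤ ρ := by
  obtain ⟨a, σ, ha, -, hdec, hsing⟩ := Pool.Agent.Helper88.AG.decomp ρ hi.two.map_eq
  have ha0 : a ≠ 0 := by
    intro h0
    apply h
    rw [hdec, h0, zero_smul, zero_add]
    exact hsing
  have hat : a ≠ ⊤ := (lt_of_le_of_lt ha ENNReal.one_lt_top).ne
  refine ⟨a.toReal, ENNReal.toReal_pos ha0 hat, ?_⟩
  rw [ENNReal.ofReal_toReal hat]
  conv_rhs => rw [hdec]
  exact Measure.le_add_right le_rfl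

end Helper36.ADD
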