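import Pool.Agent.Helper35.ADD.Defs
import Pool.Agent.Helper36.AD.Chain
import Pool.Agent.Helper20.ADD.Pw

/-!
ADD: P1, P1b, P2, P2b.
-/

set_option autoImplicit false

open Finset

namespace Helper36.ADDS

open Helper35.ADD

theorem H2_eq (u v : ℝ) : H2 u v = Helper36.AD.gg u v := rfl

theorem md_eq (K : ℕ) (p : ℕ → ℝ) (j r : ℕ) : md K p j r = Helper36.AD.red K p j r := by
  unfold md Helper36.AD.red
  rw [Finset.sum_filter]

theorem sh_eq (K : ℕ) (p : ℕ → ℝ) (j : ℕ) : sh K p j = Helper36.AD.HH K p j := by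
  unfold sh Helper36.AD.HH
  exact Finset.sum_congr rfl fun r _ => by rw [md_eq]

theorem cv_eq (K : ℕ) (p q : ℕ → ℝ) : Helper35.ADD.cv K p q = Helper36.AD.cv K p q := by
  funext z
  unfold Helper35.ADD.cv Helper36.AD.cv
  rw [Finset.sum_filter, Finset.sum_product]

/-- P1b -/
theorem H2_sum_le {ι : Type*} (s : Finset ι) (u v : ι → ℝ) (hu : ∀ i ∈ s, 0 ≤ u i)
    (hv : ∀ i ∈ s, 0 ≤ v i) : ∑ i ∈ s, H2 (u i) (v i) ≤ H2 (∑ i ∈ s, u i) (∑ i ∈ s, v i) :=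
  Helper36.AD.gg_sum s u v hu hv

/-- P1, homogeneous form -/
theorem pointwise (ε : ℝ) (hε : 0 < ε) : ∃ C : ℝ, 0 < C ∧ ∀ P0 P1 Q0 Q1 : ℝ, 0 ≤ P0 → 0 ≤ P1 →
    0 ≤ Q0 → 0 ≤ Q1 →
    (1 - ε) * (H2 P0 P1 * (Q0 + Q1) + (P0 + P1) * H2 Q0 Q1) - C * (H2 P0 P1 * H2 Q0 Q1) ≤
      H2 (P0 * Q0 + P1 * Q1) (P0 * Q1 + P1 * Q0) := by
  obtain ⟨C, hC0, hC⟩ := Helper20.ADD.pointwise ε hε
  refine ⟨C + 1, by linarith, fun P0 P1 Q0 Q1 h0 h1 h2 h3 => ?_⟩
  have h := Helper36.AD.gg_mul hC h0 h1 h2 h3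
  have hn : 0 ≤ H2 P0 P1 * H2 Q0 Q1 :=
    mul_nonneg (Helper36.AD.gg_nonneg h0 h1) (Helper36.AD.gg_nonneg h2 h3)
  simp only [H2_eq] at hn ⊢
  nlinarith [h, hn]

end Helper36.ADDS

namespace Helper35.ADD

open Helper36.ADDS

/-- P2 -/
theorem step {K j : ℕ} (hj : j < K) {p q : ℕ → ℝ} (hp : ∀ i, 0 ≤ p i) (hq : ∀ i, 0 ≤ q i)
    (hp1 : ∑ i ∈ range (2 ^ K), p i = 1) (hq1 : ∑ i ∈ range (2 ^ K), q i = 1) {ε C : ℝ}
    (hC : ∀ P0 P1 Q0 Q1 : ℝ, 0 ≤ P0 → 0 ≤ P1 → 0 ≤ Q0 → 0 ≤ Q1 →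
      (1 - ε) * (H2 P0 P1 * (Q0 + Q1) + (P0 + P1) * H2 Q0 Q1) - C * (H2 P0 P1 * H2 Q0 Q1) ≤
        H2 (P0 * Q0 + P1 * Q1) (P0 * Q1 + P1 * Q0)) :
    (1 - ε) * ((sh K p (j + 1) - sh K p j) + (sh K q (j + 1) - sh K q j)) -
      C * ((sh K p (j + 1) - sh K p j) * (sh K q (j + 1) - sh K q j)) ≤
        sh K (cv K p q) (j + 1) - sh K (cv K p q) j := by
  rw [cv_eq, sh_eq, sh_eq, sh_eq, sh_eq, sh_eq, sh_eq]
  have hx : ∀ i r, 0 ≤ Helper36.AD.red K p i r := Helper36.AD.red_nonneg hp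
  have hy : ∀ i r, 0 ≤ Helper36.AD.red K q i r := Helper36.AD.red_nonneg hq
  refine le_trans ?_ (Helper36.AD.HH_cv_ge hj hp hq)
  refine le_trans ?_ (Finset.sum_le_sum fun r _ => Finset.sum_le_sum fun s _ =>
    hC _ _ _ _ (hx (j + 1) r) (hx (j + 1) (r + 2 ^ j)) (hy (j + 1) s) (hy (j + 1) (s + 2 ^ j)))
  rw [Helper36.AD.HH_succ_sub, Helper36.AD.HH_succ_sub]
  simp only [H2_eq]
  set a : ℕ → ℝ := fun r => Helper36.AD.gg (Helper36.AD.red K p (j + 1) r)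
    (Helper36.AD.red K p (j + 1) (r + 2 ^ j)) with ha
  set b : ℕ → ℝ := fun s => Helper36.AD.gg (Helper36.AD.red K q (j + 1) s)
    (Helper36.AD.red K q (j + 1) (s + 2 ^ j)) with hb
  have s1 : ∑ r ∈ range (2 ^ j), (Helper36.AD.red K p (j + 1) r +
      Helper36.AD.red K p (j + 1) (r + 2 ^ j)) = 1 := by
    rw [← hp1, ← Helper36.AD.sum_red p j]
    exact Finset.sum_congr rfl fun r hr =>
      (Helper36.AD.red_split p j r (Finset.mem_range.1 hr)).symm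
  have s2 : ∑ r ∈ range (2 ^ j), (Helper36.AD.red K q (j + 1) r +
      Helper36.AD.red K q (j + 1) (r + 2 ^ j)) = 1 := by
    rw [← hq1, ← Helper36.AD.sum_red q j]
    exact Finset.sum_congr rfl fun r hr =>
      (Helper36.AD.red_split q j r (Finset.mem_range.1 hr)).symm
  refine le_of_eq ?_
  symm
  calc ∑ r ∈ range (2 ^ j), ∑ s ∈ range (2 ^ j),
        ((1 - ε) * (a r * (Helper36.AD.red K q (j + 1) s + Helper36.AD.red K q (j + 1) (s + 2 ^ j)) +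
          (Helper36.AD.red K p (j + 1) r + Helper36.AD.red K p (j + 1) (r + 2 ^ j)) * b s) -
          C * (a r * b s))
      = (1 - ε) * ((∑ r ∈ range (2 ^ j), a r) *
          (∑ s ∈ range (2 ^ j), (Helper36.AD.red K q (j + 1) s +
            Helper36.AD.red K q (j + 1) (s + 2 ^ j))) +
          (∑ r ∈ range (2 ^ j), (Helper36.AD.red K p (j + 1) r +
            Helper36.AD.red K p (j + 1) (r + 2 ^ j))) * ∑ s ∈ range (2 ^ j), b s) -
        C * ((∑ r ∈ range (2 ^ j), a r) * ∑ s ∈ range (2 ^ j), b s) := by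
        rw [Finset.sum_mul_sum, Finset.sum_mul_sum, Finset.sum_mul_sum]
        simp only [← Finset.sum_add_distrib, Finset.mul_sum, ← Finset.sum_sub_distrib]
    _ = _ := by
        rw [s1, s2]
        ring

/-- P2b -/
theorem inc_bounds {K j : ℕ} (hj : j < K) {p : ℕ → ℝ} (hp : ∀ i, 0 ≤ p i)
    (hp1 : ∑ i ∈ range (2 ^ K), p i = 1) :
    0 ≤ sh K p (j + 1) - sh K p j ∧ sh K p (j + 1) - sh K p j ≤ Real.log 2 := by
  rw [sh_eq, sh_eq]
  constructor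
  · have := Helper36.AD.HH_le_succ (K := K) hp j
    linarith
  · have hx : ∀ i r, 0 ≤ Helper36.AD.red K p i r := Helper36.AD.red_nonneg hp
    have s1 : ∑ r ∈ range (2 ^ j), (Helper36.AD.red K p (j + 1) r +
        Helper36.AD.red K p (j + 1) (r + 2 ^ j)) = 1 := by
      rw [← hp1, ← Helper36.AD.sum_red p j]
      exact Finset.sum_congr rfl fun r hr =>
        (Helper36.AD.red_split p j r (Finset.mem_range.1 hr)).symm
    rw [Helper36.AD.HH_succ_sub]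
    calc ∑ r ∈ range (2 ^ j), Helper36.AD.gg (Helper36.AD.red K p (j + 1) r)
          (Helper36.AD.red K p (j + 1) (r + 2 ^ j))
        ≤ ∑ r ∈ range (2 ^ j), (Helper36.AD.red K p (j + 1) r +
          Helper36.AD.red K p (j + 1) (r + 2 ^ j)) * Real.log 2 := by
          refine Finset.sum_le_sum fun r _ => ?_
          rcases (add_nonneg (hx (j + 1) r) (hx (j + 1) (r + 2 ^ j))).eq_or_lt with h | h
          · have h0 : Helper36.AD.red K p (j + 1) r = 0 := by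
              linarith [hx (j + 1) r, hx (j + 1) (r + 2 ^ j)]
            have h1 : Helper36.AD.red K p (j + 1) (r + 2 ^ j) = 0 := by
              linarith [hx (j + 1) r, hx (j + 1) (r + 2 ^ j)]
            rw [h0, h1, Helper36.AD.gg_zero]
            simp
          · rw [Helper36.AD.gg_eq (hx _ _) (hx _ _) h]
            exact mul_le_mul_of_nonneg_left Real.binEntropy_le_log_two h.le
      _ = Real.log 2 := by rw [← Finset.sum_mul, s1, one_mul]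

end Helper35.ADD
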