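import Pool.Agent.Helper35.ADD.Defs
import Pool.Agent.Helper35.AG.Ent
import Pool.Agent.Helper36.ADD.Step

/-!
ADD: P3c, the carry bit.
-/

set_option autoImplicit false

open Finset MeasureTheory
open Helper35.AG (Tor idx ent conv)

namespace Helper36.ADDS

/-- a partition by a function with values in a finite set -/
theorem sum_parts {Ω : Type*} [MeasurableSpace Ω] (π : Measure Ω) [IsFiniteMeasure π] (N : ℕ)
    (f : Ω → ℕ) (hf : ∀ x, f x < N) (hm : ∀ i, MeasurableSet {x | f x = i}) {E : Set Ω}
    (hE : MeasurableSet E) : ∑ i ∈ range N, π.real ({x | f x = i} ∩ E) = π.real E := by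
  rw [← measureReal_biUnion_finset]
  · congr 1
    ext x
    simp only [Set.mem_iUnion, Set.mem_inter_iff, Set.mem_ofPred_eq, Finset.mem_range]
    constructor
    · rintro ⟨i, _, _, h⟩
      exact h
    · intro h
      exact ⟨f x, hf x, rfl, h⟩
  · intro i _ j _ hij
    refine Set.disjoint_left.2 fun x hx hx' => hij ?_
    exact hx.1.symm.trans hx'.1
  · exact fun i _ => (hm i).inter hE

end Helper36.ADDS

namespace Helper35.ADD

open Helper36.ADDS

/-- P3c -/
theorem carry (μ ν : Measure Tor) [IsProbabilityMeasure μ] [IsProbabilityMeasure ν] (K : ℕ) :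
    sh K (cv K (fun i => μ.real {x | idx K x = i}) (fun i => ν.real {x | idx K x = i})) K ≤
      ent (conv μ ν) K + Real.log 2 := by
  classical
  set π : Measure (Tor × Tor) := μ.prod ν with hπ
  have hmi : Measurable fun p : Tor × Tor => idx K p.1 :=
    (Helper35.AG.measurable_idx K).comp measurable_fst
  have hmj : Measurable fun p : Tor × Tor => idx K p.2 :=
    (Helper35.AG.measurable_idx K).comp measurable_snd
  have hms : Measurable fun p : Tor × Tor => idx K (p.1 + p.2) :=
    (Helper35.AG.measurable_idx K).comp (by fun_prop)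
  have hpos : 0 < 2 ^ K := by positivity
  let F : Tor × Tor → ℕ := fun p => idx K (p.1 + p.2)
  let G : Tor × Tor → ℕ := fun p => (idx K p.1 + idx K p.2) % 2 ^ K
  have hF : ∀ i, MeasurableSet {p | F p = i} := fun i => hms (measurableSet_singleton i)
  have hGm : Measurable G := (Measurable.of_discrete (f := fun n : ℕ => n % 2 ^ K)).comp
    (hmi.add hmj)
  have hG : ∀ i, MeasurableSet {p | G p = i} := fun i => hGm (measurableSet_singleton i)
  have hFlt : ∀ p, F p < 2 ^ K := fun p => Helper35.AG.idx_lt K _
  have hGlt : ∀ p, G p < 2 ^ K := fun p => Nat.mod_lt _ hpos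
  -- the law of the sum
  have hcv : ∀ z, cv K (fun i => μ.real {x | idx K x = i}) (fun i => ν.real {x | idx K x = i}) z =
      π.real {p | G p = z} := by
    intro z
    unfold cv
    have e : {p : Tor × Tor | G p = z} = ⋃ s ∈ (range (2 ^ K) ×ˢ range (2 ^ K)).filter
        (fun s => (s.1 + s.2) % 2 ^ K = z), {x | idx K x = s.1} ×ˢ {x | idx K x = s.2} := by
      ext p
      simp only [Set.mem_iUnion, Set.mem_ofPred_eq, Finset.mem_filter, Finset.mem_product,
        Finset.mem_range, Set.mem_prod]
      constructor
      · intro h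
        exact ⟨(idx K p.1, idx K p.2), ⟨⟨Helper35.AG.idx_lt K _, Helper35.AG.idx_lt K _⟩, h⟩,
          rfl, rfl⟩
      · rintro ⟨s, ⟨_, h⟩, h1, h2⟩
        change (idx K p.1 + idx K p.2) % 2 ^ K = z
        rw [h1, h2]
        exact h
    rw [e, measureReal_biUnion_finset]
    · refine Finset.sum_congr rfl fun s _ => ?_
      rw [hπ, measureReal_prod_prod]
    · intro s _ s' _ hss
      refine Set.disjoint_left.2 fun p hp hp' => hss ?_
      exact Prod.ext (hp.1.symm.trans hp'.1) (hp.2.symm.trans hp'.2)
    · exact fun s _ => (Helper35.AG.measurableSet_idx K s.1).prod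
        (Helper35.AG.measurableSet_idx K s.2)
  have hent : ∀ i, (conv μ ν).real {x | idx K x = i} = π.real {p | F p = i} := by
    intro i
    unfold conv
    rw [map_measureReal_apply (by fun_prop) (Helper35.AG.measurableSet_idx K i)]
    rfl
  let m : ℕ → ℕ → ℝ := fun i z => π.real ({p | F p = i} ∩ {p | G p = z})
  have hcol : ∀ z, ∑ i ∈ range (2 ^ K), m i z = π.real {p | G p = z} := fun z =>
    sum_parts π (2 ^ K) F hFlt hF (hG z)
  have hrow : ∀ i, ∑ z ∈ range (2 ^ K), m i z = π.real {p | F p = i} := by
    intro i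
    have h := sum_parts π (2 ^ K) G hGlt hG (hF i)
    rw [← h]
    exact Finset.sum_congr rfl fun z _ => by
      change π.real _ = π.real _
      rw [Set.inter_comm]
  have htot : ∑ i ∈ range (2 ^ K), ∑ z ∈ range (2 ^ K), m i z = 1 := by
    rw [Finset.sum_congr rfl fun i _ => hrow i]
    have h := sum_parts π (2 ^ K) F hFlt hF MeasurableSet.univ
    simp only [Set.inter_univ] at h
    rw [h]
    exact probReal_univ
  have hmain := Helper35.AG.matrix_le (range (2 ^ K)) (range (2 ^ K)) m
    (fun i _ z _ => measureReal_nonneg)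
    (fun i => (range (2 ^ K)).filter fun z => z = i ∨ (z + 1) % 2 ^ K = i)
    (fun i hi => by
      have : ((range (2 ^ K)).filter fun z => z = i ∨ (z + 1) % 2 ^ K = i) ⊆
          {i, (i + (2 ^ K - 1)) % 2 ^ K} := by
        intro z hz
        rw [Finset.mem_filter, Finset.mem_range] at hz
        rw [Finset.mem_insert, Finset.mem_singleton]
        rcases hz.2 with h | h
        · exact Or.inl h
        · right
          rw [← h, Nat.mod_add_mod, show z + 1 + (2 ^ K - 1) = z + 2 ^ K by omega,
            Nat.add_mod_right, Nat.mod_eq_of_lt hz.1]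
      exact (Finset.card_le_card this).trans Finset.card_le_two)
    (fun i _ => Finset.filter_subset _ _)
    (fun i _ z hz hzJ => by
      have h0 : ({p | F p = i} ∩ {p | G p = z} : Set (Tor × Tor)) = ∅ := by
        rw [Set.eq_empty_iff_forall_notMem]
        rintro p ⟨h1, h2⟩
        apply hzJ
        rw [Finset.mem_filter]
        refine ⟨hz, ?_⟩
        have h1' : idx K (p.1 + p.2) = i := h1
        have h2' : (idx K p.1 + idx K p.2) % 2 ^ K = z := h2
        rcases Helper35.AG.idx_add K p.1 p.2 with h | h
        · left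
          rw [← h2', ← h1', h]
        · right
          rw [← h1', h, ← h2', Nat.mod_add_mod]
      change π.real _ = 0
      rw [h0]
      exact measureReal_empty)
  rw [htot, one_mul] at hmain
  have e1 : sh K (cv K (fun i => μ.real {x | idx K x = i}) (fun i => ν.real {x | idx K x = i})) K =
      ∑ z ∈ range (2 ^ K), Real.negMulLog (∑ i ∈ range (2 ^ K), m i z) := by
    rw [sh_eq, Helper36.AD.HH_top]
    exact Finset.sum_congr rfl fun z _ => by rw [hcv z, hcol z]
  have e2 : ent (conv μ ν) K =
      ∑ i ∈ range (2 ^ K), Real.negMulLog (∑ z ∈ range (2 ^ K), m i z) := by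
    unfold ent
    exact Finset.sum_congr rfl fun i _ => by rw [hent i, hrow i]
  rw [e1, e2]
  exact hmain

end Helper35.ADD
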